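import Mathlib
import Pool.Agent.H6.Pick

namespace Pool.Agent.Results.MP_c109b8_an.Singular

open Complex Metric Finset Filter Topology Pool.Agent.H6.Pick
open scoped ComplexConjugate

/-- Bounded analytic functions on the open unit disc. -/
def HInf (g : ℂ → ℂ) : Prop :=
  DifferentiableOn ℂ g (ball 0 1) ∧ ∃ M : ℝ, ∀ z ∈ ball (0 : ℂ) 1, ‖g z‖ ≤ M

/-- The supremum norm over the open unit disc. -/
noncomputable def supN (g : ℂ → ℂ) : ℝ := ⨆ z : ball (0 : ℂ) 1, ‖g z‖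

/-- `g` is a minimal-norm interpolant of `f` at the nodes `z n`. -/
def MinInterp (f : ℂ → ℂ) (z : ℕ → ℂ) (g : ℂ → ℂ) : Prop :=
  HInf g ∧ (∀ n, g (z n) = f (z n)) ∧
    ∀ h, HInf h → (∀ n, h (z n) = f (z n)) → supN g ≤ supN h

/-- `B` is a Blaschke product on the disc (finite or infinite, repetitions allowed). -/
def IsBlaschke (B : ℂ → ℂ) : Prop :=
  ∃ (θ : ℝ) (k : ℕ) (J : Set ℕ) (a : J → ℂ), (∀ j, a j ≠ 0 ∧ ‖a j‖ < 1) ∧
    Summable (fun j => 1 - ‖a j‖) ∧ ∀ z ∈ ball (0 : ℂ) 1,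
      B z = exp (θ * I) * z ^ k * ∏' j, ((‖a j‖ : ℂ) / a j * ((a j - z) / (1 - conj (a j) * z)))

noncomputable def S (z : ℂ) : ℂ := exp (-((1 + z) / (1 - z)))

theorem S_ph {s : ℂ} (hs : 0 < s.re) : S (ph s) = exp (-s) := by
  have := add_one_ne hs
  have h1 : 1 - ph s = 2 / (s + 1) := by unfold ph; field_simp; ring
  have h2 : 1 + ph s = 2 * s / (s + 1) := by unfold ph; field_simp; ring
  rw [S, h1, h2]
  congr 2
  field_simp

theorem one_sub_ne' {z : ℂ} (hz : z ∈ ball (0:ℂ) 1) : 1 - z ≠ 0 := by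
  intro h
  rw [← sub_eq_zero.1 h] at hz
  simp at hz

theorem ex_ph {z : ℂ} (hz : z ∈ ball (0:ℂ) 1) : ∃ w : ℂ, 0 < w.re ∧ ph w = z := by
  have h1 := one_sub_ne' hz
  refine ⟨(1 + z) / (1 - z), ?_, ?_⟩
  · rw [div_re]
    have h2 : 0 < normSq (1 - z) := normSq_pos.2 h1
    have h3 : normSq z < 1 := by
      rw [normSq_eq_norm_sq]
      have := mem_ball_zero_iff.1 hz
      nlinarith [norm_nonneg z]
    rw [← add_div]
    refine div_pos ?_ h2
    simp only [normSq_apply, add_re, one_re, sub_re, add_im, one_im, sub_im] at h3 ⊢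
    nlinarith
  · have h2 : (1 + z) / (1 - z) - 1 = 2 * z / (1 - z) := by field_simp; ring
    have h3 : (1 + z) / (1 - z) + 1 = 2 / (1 - z) := by field_simp; ring
    rw [ph, h2, h3]
    field_simp

theorem S_le {z : ℂ} (hz : z ∈ ball (0:ℂ) 1) : ‖S z‖ ≤ 1 := by
  obtain ⟨w, hw, rfl⟩ := ex_ph hz
  rw [S_ph hw, norm_exp, Real.exp_le_one_iff, neg_re]
  linarith

theorem S_diff : DifferentiableOn ℂ S (ball 0 1) := fun _ hz =>
  (((differentiableAt_const _).add differentiableAt_id).div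
    ((differentiableAt_const _).sub differentiableAt_id)
      (one_sub_ne' hz)).neg.cexp.differentiableWithinAt

theorem alt (β : ℂ) (n : ℕ) : ∀ b : ℂ, (∀ k : ℕ, b + β * k ≠ 0) →
    ∑ k ∈ range (n + 1), (-1) ^ k * (n.choose k : ℂ) / (b + β * k) =
      n.factorial * β ^ n / ∏ k ∈ range (n + 1), (b + β * k) := by
  induction n with
  | zero => intro b _; simp
  | succ n ih =>
    intro b hb
    have hb' : ∀ k : ℕ, b + β + β * k = b + β * (k + 1 : ℕ) := fun k => by push_cast; ring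
    have h1 := ih b hb
    have h2 := ih (b + β) fun k => by rw [hb']; exact hb _
    have h3 := sum_choose_succ_mul (fun i _ => (-1 : ℂ) ^ i / (b + β * i)) n
    have h4 : ∑ k ∈ range (n + 1 + 1), (-1) ^ k * ((n + 1).choose k : ℂ) / (b + β * k) =
        ∑ k ∈ range (n + 1), (-1) ^ k * (n.choose k : ℂ) / (b + β * k) -
        ∑ k ∈ range (n + 1), (-1) ^ k * (n.choose k : ℂ) / (b + β + β * k) := by
      rw [sub_eq_add_neg, ← sum_neg_distrib]
      refine Eq.trans (sum_congr rfl fun k _ => by ring) (h3.trans ?_)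
      congr 1
      · exact sum_congr rfl fun k _ => by ring
      · exact sum_congr rfl fun k _ => by rw [hb']; ring
    rw [h4, h1, h2]
    simp only [hb']
    have p1 : ∏ k ∈ range (n + 1), (b + β * k) ≠ 0 := prod_ne_zero_iff.2 fun k _ => hb k
    have p2 : ∏ k ∈ range (n + 1), (b + β * (k + 1 : ℕ)) ≠ 0 :=
      prod_ne_zero_iff.2 fun k _ => hb _
    have e1 := prod_range_succ (fun k : ℕ => b + β * k) (n + 1)
    have e2 := prod_range_succ' (fun k : ℕ => b + β * k) (n + 1)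
    have p3 : ∏ k ∈ range (n + 1 + 1), (b + β * k) ≠ 0 := prod_ne_zero_iff.2 fun k _ => hb k
    have p4 := hb (n + 1)
    have p5 := hb 0
    have e3 : (∏ k ∈ range (n + 1), (b + β * k))⁻¹ =
        (b + β * (n + 1 : ℕ)) / ∏ k ∈ range (n + 1 + 1), (b + β * k) := by
      rw [e1]; field_simp
    have e4 : (∏ k ∈ range (n + 1), (b + β * (k + 1 : ℕ)))⁻¹ =
        (b + β * (0 : ℕ)) / ∏ k ∈ range (n + 1 + 1), (b + β * k) := by
      rw [e2]; field_simp
    rw [div_eq_mul_inv, div_eq_mul_inv _ (∏ k ∈ range (n + 1), (b + β * (k + 1 : ℕ))), e3, e4,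
      Nat.factorial_succ]
    push_cast
    ring

noncomputable def nd (y : ℝ) (n k : ℕ) : ℂ := y + I / 18 * (n + k)

theorem nd_re (y : ℝ) (n k : ℕ) : (nd y n k).re = y := by simp [nd]

theorem nd_im (y : ℝ) (n k : ℕ) : (nd y n k).im = (n + k) / 18 := by simp [nd]; ring

theorem Q_le {y : ℝ} (hy : 0 < y) (n : ℕ) :
    (∑ i : Fin (n + 1), ∑ j : Fin (n + 1), ((-1) ^ (i : ℕ) * (n.choose i : ℂ)) *
      conj ((-1) ^ (j : ℕ) * (n.choose j : ℂ)) *
      (1 - exp (-nd y n i) * conj (exp (-nd y n j))) / (nd y n i + conj (nd y n j))).re ≤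
      ((1 / 18) ^ n) ^ 2 := by
  let φ : ℝ → ℂ := fun t => ∑ i : Fin (n + 1), ((-1) ^ (i : ℕ) * (n.choose i : ℂ)) *
    exp (-nd y n i * t)
  have h1 : ∀ i j : Fin (n + 1), ((-1) ^ (i : ℕ) * (n.choose i : ℂ)) *
      conj ((-1) ^ (j : ℕ) * (n.choose j : ℂ)) *
      (1 - exp (-nd y n i) * conj (exp (-nd y n j))) / (nd y n i + conj (nd y n j)) =
      ∫ t in (0:ℝ)..1, ((-1) ^ (i : ℕ) * (n.choose i : ℂ)) *
      conj ((-1) ^ (j : ℕ) * (n.choose j : ℂ)) * exp (-(nd y n i + conj (nd y n j)) * t) := by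
    intro i j
    have h0 := add_conj_ne (s := nd y n i) (t := nd y n j) (by rwa [nd_re]) (by rwa [nd_re])
    rw [intervalIntegral.integral_const_mul, integral_exp_mul_complex (neg_ne_zero.2 h0),
      ← exp_conj, ← exp_add, map_neg]
    simp only [ofReal_one, mul_one, ofReal_zero, mul_zero, exp_zero, neg_add]
    rw [← neg_add]
    field_simp
    ring
  have h2 : ∀ t : ℝ, ∑ i : Fin (n + 1), ∑ j : Fin (n + 1), ((-1) ^ (i : ℕ) * (n.choose i : ℂ)) *
      conj ((-1) ^ (j : ℕ) * (n.choose j : ℂ)) * exp (-(nd y n i + conj (nd y n j)) * t) =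
      φ t * conj (φ t) := by
    intro t
    simp only [φ, map_sum, sum_mul_sum]
    refine sum_congr rfl fun i _ => sum_congr rfl fun j _ => ?_
    rw [map_mul _ _ (exp _), ← exp_conj, neg_add, add_mul, exp_add]
    simp only [map_mul, map_neg, conj_ofReal]
    ring
  have h3 : ∀ t ∈ Set.uIoc (0:ℝ) 1, ‖φ t‖ ≤ (1 / 18) ^ n := by
    intro t ht
    rw [Set.uIoc_of_le zero_le_one] at ht
    have h4 : φ t = exp (-nd y n 0 * t) * (-exp (I * ((-t / 18 : ℝ) : ℂ)) + 1) ^ n := by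
      rw [add_pow, mul_sum, ← Fin.sum_univ_eq_sum_range
        (fun k => exp (-nd y n 0 * t) * ((-exp (I * ((-t / 18 : ℝ) : ℂ))) ^ k * 1 ^ (n - k) *
          (n.choose k : ℂ))) (n + 1)]
      refine sum_congr rfl fun i _ => ?_
      rw [neg_pow (exp _), ← exp_nat_mul]
      have : -nd y n i * t = -nd y n 0 * t + (i : ℕ) * (I * ((-t / 18 : ℝ) : ℂ)) := by
        simp only [nd]; push_cast; ring
      rw [this, exp_add]
      ring
    rw [h4, norm_mul, norm_pow, norm_exp]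
    have h5 : Real.exp (-nd y n 0 * t).re ≤ 1 := by
      rw [Real.exp_le_one_iff, re_mul_ofReal, neg_re, nd_re]
      nlinarith [ht.1]
    have h6 : ‖-exp (I * ((-t / 18 : ℝ) : ℂ)) + 1‖ ≤ 1 / 18 := by
      rw [← norm_neg, neg_add, neg_neg, ← sub_eq_add_neg]
      refine Real.norm_exp_I_mul_ofReal_sub_one_le.trans ?_
      rw [Real.norm_eq_abs, abs_le]
      constructor <;> linarith [ht.1, ht.2]
    refine le_trans ?_ (one_mul _).le
    gcongr
  simp only [h1]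
  rw [sum_congr rfl fun i _ => (intervalIntegral.integral_finsetSum fun j _ =>
    Continuous.intervalIntegrable (by fun_prop) _ _).symm,
    ← intervalIntegral.integral_finsetSum fun j _ =>
      Continuous.intervalIntegrable (by fun_prop) _ _]
  simp only [h2]
  refine (re_le_norm _).trans ((intervalIntegral.norm_integral_le_of_norm_le_const
    (C := ((1 / 18) ^ n) ^ 2) fun t ht => ?_).trans (by simp))
  rw [norm_mul, norm_conj, ← sq]
  have := h3 t ht
  gcongr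

theorem P_ge {y : ℝ} (hy : 0 < y) {n : ℕ} (hn : 0 < n) {w : ℂ} (hw : 0 < w.re)
    (h : y + ‖w‖ ≤ n / 18) :
    6 / (n * 9 ^ n) ≤ ‖∑ i : Fin (n + 1), ((-1) ^ (i : ℕ) * (n.choose i : ℂ)) /
      (nd y n i + conj w)‖ := by
  have h1 : ∀ k : ℕ, nd y n k + conj w = (nd y n 0 + conj w) + I / 18 * k := fun k => by
    simp only [nd]; push_cast; ring
  have h2 : ∀ k : ℕ, (nd y n 0 + conj w) + I / 18 * k ≠ 0 := fun k => by
    rw [← h1]; exact add_conj_ne (by rwa [nd_re]) hw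
  rw [Fin.sum_univ_eq_sum_range (fun k => ((-1) ^ k * (n.choose k : ℂ)) / (nd y n k + conj w)),
    sum_congr rfl fun k _ => by rw [h1 k], alt _ _ _ h2, norm_div, norm_mul, norm_pow, norm_prod,
    norm_natCast]
  have h3 : ‖I / 18‖ = 1 / 18 := by simp
  have hn' : (0:ℝ) < n := by exact_mod_cast hn
  have h4 : ∏ k ∈ range (n + 1), ‖(nd y n 0 + conj w) + I / 18 * k‖ ≤ (n / 6) ^ (n + 1) := by
    refine (prod_le_prod (fun _ _ => norm_nonneg _) (g := fun _ => (n:ℝ) / 6)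
      fun k hk => ?_).trans (by rw [prod_const, card_range])
    have hk' : (k : ℝ) ≤ n := by exact_mod_cast Nat.le_of_lt_succ (mem_range.1 hk)
    have e : nd y n 0 + conj w + I / 18 * k = y + conj w + I / 18 * ((n + k : ℝ) : ℂ) := by
      simp only [nd]; push_cast; ring
    rw [e]
    refine (norm_add_le _ _).trans ((add_le_add_left (norm_add_le _ _) _).trans ?_)
    rw [norm_mul, h3, norm_conj, norm_real, norm_real, Real.norm_eq_abs, Real.norm_eq_abs,
      abs_of_pos hy, abs_of_nonneg (by positivity)]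
    linarith
  have h5 : (n : ℝ) ^ n / 3 ^ n ≤ n.factorial := by
    have h6 := Real.pow_div_factorial_le_exp (n : ℝ) hn'.le n
    have h7 : Real.exp n ≤ 3 ^ n := by
      rw [← mul_one (n : ℝ), Real.exp_nat_mul]
      exact pow_le_pow_left₀ (Real.exp_pos 1).le (Real.exp_one_lt_d9.le.trans (by norm_num)) n
    rw [div_le_iff₀ (by positivity)] at h6 ⊢
    calc _ ≤ Real.exp n * n.factorial := h6
      _ ≤ 3 ^ n * n.factorial := by gcongr
      _ = _ := mul_comm _ _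
  have h8 : 0 < ∏ k ∈ range (n + 1), ‖(nd y n 0 + conj w) + I / 18 * k‖ :=
    prod_pos fun k _ => norm_pos_iff.2 (h2 k)
  rw [h3]
  calc _ = (n : ℝ) ^ n / 3 ^ n * (1 / 18) ^ n / (n / 6) ^ (n + 1) := by
        have : (18:ℝ) ^ n = 3 ^ n * 6 ^ n := by rw [← mul_pow]; norm_num
        have h9 : (9:ℝ) ^ n = 3 ^ n * 3 ^ n := by rw [← mul_pow]; norm_num
        rw [one_div_pow, div_pow, this, h9]
        field_simp
        ring
    _ ≤ _ := by gcongr

theorem est {y : ℝ} (hy : 0 < y) {n : ℕ} (hn : 0 < n) {w : ℂ} (hw : 0 < w.re)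
    (h : y + ‖w‖ ≤ n / 18) {g : ℂ → ℂ} (hg : DifferentiableOn ℂ g (ball 0 1))
    (hb : ∀ z ∈ ball (0:ℂ) 1, ‖g z‖ ≤ 1)
    (hi : ∀ k : Fin (n + 1), g (ph (nd y n k)) = S (ph (nd y n k))) :
    √w.re * ‖g (ph w) - S (ph w)‖ ≤ n / 2 ^ n := by
  have hs : ∀ k : Fin (n + 1), 0 < (nd y n k).re := fun k => by rwa [nd_re]
  have h1 := pickCS hs (fun i => (-1) ^ (i : ℕ) * (n.choose i : ℂ)) hg hb hw
  have h2 := pickCS hs (fun i => (-1) ^ (i : ℕ) * (n.choose i : ℂ)) S_diff (fun _ => S_le) hw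
  simp only [hi] at h1
  simp only [fun k => S_ph (hs k)] at h1 h2
  replace h1 := h1.trans (Q_le hy n)
  replace h2 := h2.trans (Q_le hy n)
  have h3 := P_ge hy hn hw h
  set P := ∑ i : Fin (n + 1), ((-1) ^ (i : ℕ) * (n.choose i : ℂ)) / (nd y n i + conj w) with hP
  set R := ∑ i : Fin (n + 1), ((-1) ^ (i : ℕ) * (n.choose i : ℂ)) * exp (-nd y n i) /
    (nd y n i + conj w) with hR
  have h4 : ∀ a : ℂ, ∑ i : Fin (n + 1), ((-1) ^ (i : ℕ) * (n.choose i : ℂ)) *
      (1 - exp (-nd y n i) * a) / (nd y n i + conj w) = P - a * R := by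
    intro a
    rw [hP, hR, mul_sum, ← sum_sub_distrib]
    exact sum_congr rfl fun i _ => by ring
  rw [h4] at h1 h2
  have h5 : ∀ x : ℂ, w.re * ‖x‖ ^ 2 ≤ ((1 / 18) ^ n) ^ 2 → √w.re * ‖x‖ ≤ (1 / 18) ^ n := by
    intro x hx
    refine (pow_le_pow_iff_left₀ (by positivity) (by positivity) two_ne_zero).1 ?_
    rwa [mul_pow, Real.sq_sqrt hw.le]
  replace h1 := h5 _ h1
  replace h2 := h5 _ h2
  set a := conj (g (ph w))
  set b := conj (S (ph w))
  have hw1 : ph w ∈ ball (0:ℂ) 1 := mem_ball_zero_iff.2 (ph_lt hw)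
  have ha : ‖a‖ ≤ 1 := by rw [norm_conj]; exact hb _ hw1
  have hb' : ‖b‖ ≤ 1 := by rw [norm_conj]; exact S_le hw1
  have h6 : ‖g (ph w) - S (ph w)‖ = ‖a - b‖ := by rw [← map_sub, norm_conj]
  have h7 : ‖a - b‖ * ‖P‖ ≤ ‖P - a * R‖ + ‖P - b * R‖ := by
    have : (a - b) * P = a * (P - b * R) - b * (P - a * R) := by ring
    rw [← norm_mul, this]
    refine (norm_sub_le _ _).trans ?_
    rw [norm_mul, norm_mul]
    nlinarith [norm_nonneg (P - a * R), norm_nonneg (P - b * R)]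
  have hn' : (0:ℝ) < n := by exact_mod_cast hn
  have h8 : √w.re * ‖a - b‖ * (6 / (n * 9 ^ n)) ≤ 2 * (1 / 18) ^ n := by
    calc _ ≤ √w.re * ‖a - b‖ * ‖P‖ := by gcongr
      _ = √w.re * (‖a - b‖ * ‖P‖) := mul_assoc _ _ _
      _ ≤ √w.re * (‖P - a * R‖ + ‖P - b * R‖) := by gcongr
      _ ≤ _ := by linarith
  rw [h6]
  rw [← le_div_iff₀ (by positivity)] at h8
  refine h8.trans ?_
  have : (18:ℝ) ^ n = 2 ^ n * 9 ^ n := by rw [← mul_pow]; norm_num
  rw [one_div_pow, this]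
  have e : 2 * (1 / (2 ^ n * 9 ^ n)) / (6 / ((n:ℝ) * 9 ^ n)) = n / 2 ^ n / 3 := by
    field_simp; norm_num
  rw [e]
  exact div_le_self (by positivity) (by norm_num)

abbrev Ix : Type := Σ N : ℕ, Fin (2 ^ N + 1)

noncomputable def node (x : Ix) : ℂ := nd (x.1 + 1) (2 ^ x.1) x.2

theorem node_re (x : Ix) : 0 < (node x).re := by rw [node, nd_re]; positivity

theorem uniq {g : ℂ → ℂ} (hg : DifferentiableOn ℂ g (ball 0 1))
    (hb : ∀ z ∈ ball (0:ℂ) 1, ‖g z‖ ≤ 1) (hi : ∀ x, g (ph (node x)) = S (ph (node x)))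
    {z : ℂ} (hz : z ∈ ball (0:ℂ) 1) : g z = S z := by
  obtain ⟨w, hw, rfl⟩ := ex_ph hz
  have h1 : Tendsto (fun n : ℕ => (n : ℝ) / 2 ^ n) atTop (𝓝 0) := by
    simpa using tendsto_pow_const_div_const_pow_of_one_lt 1 (one_lt_two (α := ℝ))
  have h2 : Tendsto (fun N : ℕ => 2 ^ N) atTop atTop := tendsto_pow_atTop_atTop_of_one_lt one_lt_two
  have h3 : Tendsto (fun n : ℕ => (n : ℝ) / 2 ^ n + (1 + ‖w‖) * (1 / 2) ^ n) atTop (𝓝 0) := by
    simpa using h1.add ((tendsto_pow_atTop_nhds_zero_of_lt_one (r := (1 / 2 : ℝ)) (by norm_num)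
      (by norm_num)).const_mul (1 + ‖w‖))
  have h4 : √w.re * ‖g (ph w) - S (ph w)‖ ≤ 0 := by
    refine ge_of_tendsto (h1.comp h2) ?_
    filter_upwards [h3.eventually (gt_mem_nhds (by norm_num : (0:ℝ) < 1 / 18))] with N hN
    refine est (y := N + 1) (by positivity) (by positivity) hw ?_ hg hb fun k => hi ⟨N, k⟩
    rw [one_div_pow, mul_one_div, ← add_div, div_lt_iff₀ (by positivity)] at hN
    push_cast
    linarith
  have h5 : 0 < √w.re := Real.sqrt_pos.2 hw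
  have h6 : ‖g (ph w) - S (ph w)‖ ≤ 0 := by
    by_contra h
    exact absurd h4 (not_le.2 (mul_pos h5 (not_le.1 h)))
  exact sub_eq_zero.1 (norm_le_zero_iff.1 h6)

theorem node_inj : Function.Injective fun x => ph (node x) := by
  rintro ⟨N, k⟩ ⟨M, l⟩ h
  have a1 := add_one_ne (node_re ⟨N, k⟩)
  have a2 := add_one_ne (node_re ⟨M, l⟩)
  have h1 : node ⟨N, k⟩ = node ⟨M, l⟩ := by
    simp only [ph] at h
    rw [div_eq_div_iff a1 a2] at h
    linear_combination h / 2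
  have h2 := congrArg re h1
  simp only [node, nd_re, add_left_inj, Nat.cast_inj] at h2
  subst h2
  have h3 := congrArg im h1
  simp only [node, nd_im] at h3
  have h4 : ((k : ℕ) : ℝ) = (l : ℕ) := by linarith
  rw [Fin.ext (Nat.cast_injective h4)]

theorem node_summ : Summable fun x => 1 - ‖ph (node x)‖ := by
  have h0 : ∀ x, 0 ≤ 1 - ‖ph (node x)‖ := fun x => sub_nonneg.2 (ph_lt (node_re x)).le
  rw [summable_sigma_of_nonneg h0]
  refine ⟨fun _ => Summable.of_finite, ?_⟩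
  have h1 : Summable fun N : ℕ => 2592 * ((N : ℝ) ^ 1 * (1 / 2) ^ N + (1 / 2) ^ N) :=
    ((summable_pow_mul_geometric_of_norm_lt_one 1 (by norm_num)).add summable_geometric_two).mul_left _
  refine Summable.of_nonneg_of_le (fun N => tsum_nonneg fun k => h0 _) (fun N => ?_) h1
  rw [tsum_fintype]
  have h2 : ∀ k : Fin (2 ^ N + 1), 1 - ‖ph (node ⟨N, k⟩)‖ ≤ 4 * (N + 1) / (2 ^ N / 18) ^ 2 := by
    intro k
    have h3 := ph_sq (node_re ⟨N, k⟩)
    have h4 := ph_lt (node_re ⟨N, k⟩)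
    have h5 : (2:ℝ) ^ N / 18 ≤ ‖node ⟨N, k⟩ + 1‖ := by
      refine le_trans ?_ (im_le_norm _)
      simp only [add_im, one_im, add_zero, node, nd_im]
      push_cast
      have : (0:ℝ) ≤ (k : ℕ) := Nat.cast_nonneg _
      linarith
    have h6 : 4 * (node ⟨N, k⟩).re / ‖node ⟨N, k⟩ + 1‖ ^ 2 ≤ 4 * (N + 1) / (2 ^ N / 18) ^ 2 := by
      rw [show (node ⟨N, k⟩).re = N + 1 from nd_re _ _ _]
      gcongr
    nlinarith [norm_nonneg (ph (node ⟨N, k⟩))]
  refine (sum_le_sum fun k _ => h2 k).trans ?_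
  rw [sum_const, card_univ, Fintype.card_fin, nsmul_eq_mul]
  have h7 : ((2 ^ N + 1 : ℕ) : ℝ) ≤ 2 * 2 ^ N := by
    have : (1:ℝ) ≤ 2 ^ N := one_le_pow₀ one_le_two
    push_cast; linarith
  calc _ ≤ 2 * 2 ^ N * (4 * ((N:ℝ) + 1) / (2 ^ N / 18) ^ 2) := by gcongr
    _ = _ := by rw [one_div_pow]; field_simp; ring

theorem result : ∃ (f : ℂ → ℂ) (z : ℕ → ℂ) (g : ℂ → ℂ), HInf f ∧
    (∀ n, z n ∈ ball (0 : ℂ) 1) ∧ Function.Injective z ∧ Summable (fun n => 1 - ‖z n‖) ∧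
    Tendsto (fun n => f (z n)) atTop (𝓝 0) ∧ MinInterp f z g ∧
    (∀ h, MinInterp f z h → ∀ w ∈ ball (0 : ℂ) 1, h w = g w) ∧
    ¬ ∃ (c : ℂ) (B : ℂ → ℂ), IsBlaschke B ∧ ∀ w ∈ ball (0 : ℂ) 1, g w = c * B w := by
  have : Infinite Ix := Infinite.of_injective (fun N : ℕ => (⟨N, 0⟩ : Ix))
    fun a b h => congrArg Sigma.fst h
  obtain ⟨e⟩ : Nonempty (ℕ ≃ Ix) := nonempty_equiv_of_countable
  have hS : HInf S := ⟨S_diff, 1, fun _ => S_le⟩
  have hne : Nonempty (ball (0:ℂ) 1) := ⟨⟨0, by simp⟩⟩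
  have hS1 : supN S ≤ 1 := ciSup_le fun z => S_le z.2
  have key : ∀ h, HInf h → (∀ n, h (ph (node (e n))) = S (ph (node (e n)))) → supN h ≤ supN S →
      ∀ w ∈ ball (0 : ℂ) 1, h w = S w := by
    rintro h ⟨h1, M, hM⟩ h2 h3 w hw
    refine uniq h1 (fun z hz => ?_) (fun x => by simpa using h2 (e.symm x)) hw
    refine le_trans ?_ (h3.trans hS1)
    exact le_ciSup (f := fun z : ball (0:ℂ) 1 => ‖h z‖)
      ⟨M, by rintro _ ⟨z, rfl⟩; exact hM _ z.2⟩ ⟨z, hz⟩
  have hT : Tendsto (fun n => S (ph (node (e n)))) atTop (𝓝 0) := by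
    have h1 : Tendsto (fun x : Ix => x.1) cofinite cofinite :=
      Tendsto.cofinite_of_finite_preimage_singleton fun N => by
        refine (Set.finite_range fun k : Fin (2 ^ N + 1) => (⟨N, k⟩ : Ix)).subset ?_
        rintro ⟨M, k⟩ rfl
        exact ⟨k, rfl⟩
    have h2 := h1.comp e.injective.tendsto_cofinite
    rw [Nat.cofinite_eq_atTop] at h2
    rw [tendsto_zero_iff_norm_tendsto_zero]
    have h3 := (Real.tendsto_exp_neg_atTop_nhds_zero.comp
      (tendsto_atTop_add_const_right _ 1 tendsto_natCast_atTop_atTop)).comp h2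
    refine h3.congr fun n => ?_
    rw [S_ph (node_re _), norm_exp, neg_re, node, nd_re]
    rfl
  refine ⟨S, fun n => ph (node (e n)), S, hS, fun n => mem_ball_zero_iff.2 (ph_lt (node_re _)),
    node_inj.comp e.injective, e.summable_iff.2 node_summ, hT, ⟨hS, fun _ => rfl, ?_⟩, ?_, ?_⟩
  · intro h h1 h2
    by_contra h3
    have h4 := key h h1 h2 (not_le.1 h3).le
    apply h3
    apply le_of_eq
    unfold supN
    congr 1
    funext z
    rw [h4 _ z.2]
  · rintro h ⟨h1, h2, h3⟩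
    exact key h h1 h2 (h3 S hS fun _ => rfl)
  · rintro ⟨c, B, ⟨θ, k, J, a, ha, -, hB⟩, hc⟩
    have hJ : IsEmpty J := ⟨fun j => by
      have h1 : a j ∈ ball (0:ℂ) 1 := mem_ball_zero_iff.2 (ha j).2
      have h2 := hc _ h1
      rw [hB _ h1, tprod_of_exists_eq_zero ⟨j, by simp⟩, mul_zero, mul_zero] at h2
      exact exp_ne_zero _ h2⟩
    have h0 : (0:ℂ) ∈ ball (0:ℂ) 1 := by simp
    have hk : k = 0 := by
      by_contra hk
      have h2 := hc _ h0
      rw [hB _ h0, zero_pow hk, mul_zero, zero_mul, mul_zero] at h2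
      exact exp_ne_zero _ h2
    subst hk
    have h3 : ∀ w ∈ ball (0:ℂ) 1, S w = S 0 := fun w hw => by
      rw [hc _ hw, hc _ h0, hB _ hw, hB _ h0]
      simp
    have h4 : (fun n => S (ph (node (e n)))) = fun _ => S 0 :=
      funext fun n => h3 _ (mem_ball_zero_iff.2 (ph_lt (node_re _)))
    rw [h4] at hT
    exact exp_ne_zero _ (tendsto_nhds_unique tendsto_const_nhds hT)

end Pool.Agent.Results.MP_c109b8_an.Singular
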